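import Pool.Agent.Lib.MP_9a50b7_lc_Own.Fixed

/-!
# The finiteness property is undecidable, already for a fixed number of integer matrices of a
fixed size
-/

set_option autoImplicit false

namespace Pool.Agent.Results.MP_9a50b7_lc.FixedSizeUndecidable

open Filter Topology
open scoped Pointwise

/-- The square matrices of size `n` with real entries. -/
abbrev Mat (n : ℕ) : Type := Matrix (Fin n) (Fin n) ℝ

/-- The norm `‖A‖`, here the sum of the absolute values of the entries. -/
def nrm {n : ℕ} (A : Mat n) : ℝ := ∑ i, ∑ j, |A i j|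

/-- `ρ` is the joint spectral radius of the finite set `S`, that is, the limit of
`max {‖A‖ : A ∈ S ^ t} ^ (1 / t)` as `t` tends to infinity. Here `S ^ t` is the set of all
products of `t` elements of `S`. -/
def IsJSR {n : ℕ} (S : Set (Mat n)) (ρ : ℝ) : Prop :=
  Tendsto (fun t : ℕ => sSup (nrm '' (S ^ t)) ^ ((1 : ℝ) / t)) atTop (𝓝 ρ)

/-- The spectral radius of a real matrix: the largest modulus of a complex eigenvalue. -/
noncomputable def specRad {n : ℕ} (A : Mat n) : ℝ :=
  (spectralRadius ℂ (A.map Complex.ofReal)).toReal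

/-- The finiteness property: some product `A` of `t ≥ 1` elements of `S` satisfies
`ρ(A) ^ (1 / t) = ρ(S)`. -/
def FinitenessProperty {n : ℕ} (S : Set (Mat n)) : Prop :=
  ∃ t : ℕ, 1 ≤ t ∧ ∃ A ∈ S ^ t, IsJSR S (specRad A ^ ((1 : ℝ) / t))

/-- The code of an input: the size `n` and the list of the matrices; a matrix is given by the
list of its rows, and every entry by a pair of integers (numerator, denominator). -/
abbrev Code : Type := ℕ × List (List (List (ℤ × ℤ)))

/-- The code `c` describes a nonempty finite set of rational matrices of size `n ≥ 1`: every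
matrix has `n` rows with `n` entries, and no denominator is zero. -/
def IsInstance (c : Code) : Prop :=
  0 < c.1 ∧ c.2 ≠ [] ∧
    ∀ M ∈ c.2, M.length = c.1 ∧ ∀ r ∈ M, r.length = c.1 ∧ ∀ q ∈ r, q.2 ≠ 0

/-- The matrix described by a list of rows. -/
noncomputable def matOf (n : ℕ) (M : List (List (ℤ × ℤ))) : Mat n :=
  Matrix.of fun i j =>
    (((M.getD i []).getD j (0, 1)).1 : ℝ) / (((M.getD i []).getD j (0, 1)).2 : ℝ)

/-- The set of matrices described by a code. -/
def matSet (c : Code) : Set (Mat c.1) := {A | ∃ M ∈ c.2, A = matOf c.1 M}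

/-- All entries of the matrices are integers, with denominator `1`. -/
def IsInteger (c : Code) : Prop := ∀ M ∈ c.2, ∀ r ∈ M, ∀ q ∈ r, q.2 = 1

/-- The function `F` decides the finiteness property, for the inputs `c` with `P c`. -/
def Decides (F : Code → Bool) (P : Code → Prop) : Prop :=
  ∀ c, IsInstance c → P c → (F c = true ↔ FinitenessProperty (matSet c))

/-! ### The norm -/

theorem nrm_nonneg {n : ℕ} (A : Mat n) : 0 ≤ nrm A :=
  Finset.sum_nonneg fun _ _ => Finset.sum_nonneg fun _ _ => abs_nonneg _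

theorem entry_le_nrm {n : ℕ} (A : Mat n) (i j : Fin n) : |A i j| ≤ nrm A := by
  refine (Finset.single_le_sum (f := fun j => |A i j|) (fun _ _ => abs_nonneg _)
    (Finset.mem_univ j)).trans ?_
  exact Finset.single_le_sum (f := fun i => ∑ j, |A i j|)
    (fun _ _ => Finset.sum_nonneg fun _ _ => abs_nonneg _) (Finset.mem_univ i)

theorem nrm_le_of_entry {n : ℕ} {A : Mat n} {c : ℝ} (h : ∀ i j, |A i j| ≤ c) :
    nrm A ≤ n * (n * c) := by
  unfold nrm
  refine (Finset.sum_le_sum fun i _ => Finset.sum_le_sum fun j _ => h i j).trans ?_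
  simp

theorem nrm_mul_le {n : ℕ} (A B : Mat n) : nrm (A * B) ≤ nrm A * nrm B := by
  have h1 : ∀ i j, |(A * B) i j| ≤ ∑ k, |A i k| * |B k j| := by
    intro i j
    rw [Matrix.mul_apply]
    refine (Finset.abs_sum_le_sum_abs _ _).trans (le_of_eq ?_)
    exact Finset.sum_congr rfl fun k _ => abs_mul _ _
  have h2 : ∀ k, ∑ j, |B k j| ≤ nrm B := fun k =>
    Finset.single_le_sum (f := fun k => ∑ j, |B k j|)
      (fun _ _ => Finset.sum_nonneg fun _ _ => abs_nonneg _) (Finset.mem_univ k)
  calc nrm (A * B) ≤ ∑ i, ∑ j, ∑ k, |A i k| * |B k j| :=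
        Finset.sum_le_sum fun i _ => Finset.sum_le_sum fun j _ => h1 i j
    _ = ∑ i, ∑ k, |A i k| * ∑ j, |B k j| := by
        refine Finset.sum_congr rfl fun i _ => ?_
        rw [Finset.sum_comm]
        exact Finset.sum_congr rfl fun k _ => (Finset.mul_sum _ _ _).symm
    _ ≤ ∑ i, ∑ k, |A i k| * nrm B := by
        refine Finset.sum_le_sum fun i _ => Finset.sum_le_sum fun k _ => ?_
        exact mul_le_mul_of_nonneg_left (h2 k) (abs_nonneg _)
    _ = nrm A * nrm B := by
        unfold nrm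
        rw [Finset.sum_mul]
        exact Finset.sum_congr rfl fun i _ => (Finset.sum_mul _ _ _).symm

/-! ### The spectral radius -/

section gelfand

attribute [local instance] Matrix.linftyOpNormedRing Matrix.linftyOpNormedAlgebra
  Matrix.linftyOpNormedAddCommGroup

theorem exists_root_specRad {n : ℕ} (hn : 0 < n) (A : Mat n) :
    ∃ z : ℂ, (A.map Complex.ofReal).charpoly.IsRoot z ∧ ‖z‖ = specRad A := by
  have : Nonempty (Fin n) := ⟨⟨0, hn⟩⟩
  obtain ⟨z, hz, hz2⟩ := spectrum.exists_nnnorm_eq_spectralRadius (A.map Complex.ofReal)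
  refine ⟨z, Matrix.mem_spectrum_iff_isRoot_charpoly.1 hz, ?_⟩
  unfold specRad
  rw [← hz2]
  simp

theorem root_le_specRad {n : ℕ} {A : Mat n} {z : ℂ}
    (hz : (A.map Complex.ofReal).charpoly.IsRoot z) : ‖z‖ ≤ specRad A := by
  have hn : 0 < n := by
    rcases Nat.eq_zero_or_pos n with rfl | h
    · simp at hz
    · exact h
  have : Nonempty (Fin n) := ⟨⟨0, hn⟩⟩
  have h1 := Matrix.mem_spectrum_iff_isRoot_charpoly.2 hz
  have h2 : (‖z‖₊ : ENNReal) ≤ spectralRadius ℂ (A.map Complex.ofReal) :=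
    le_iSup₂ (α := ENNReal) z h1
  obtain ⟨w, -, hw2⟩ := spectrum.exists_nnnorm_eq_spectralRadius (A.map Complex.ofReal)
  unfold specRad
  rw [← hw2] at h2 ⊢
  have h3 : ‖z‖₊ ≤ ‖w‖₊ := by exact_mod_cast h2
  have h4 : ‖z‖ ≤ ‖w‖ := by exact_mod_cast h3
  simpa using h4

end gelfand

theorem specRad_nonneg {n : ℕ} (A : Mat n) : 0 ≤ specRad A := ENNReal.toReal_nonneg

/-- The spectral radius of `A` is at most `‖A ^ s‖ ^ (1 / s)`. -/
theorem specRad_pow_le {n : ℕ} (hn : 0 < n) (A : Mat n) (s : ℕ) :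
    specRad A ^ s ≤ nrm (A ^ s) := by
  obtain ⟨z, hz, hz2⟩ := exists_root_specRad hn A
  rw [← hz2]
  have hdet : (Matrix.scalar (Fin n) z - A.map Complex.ofReal).det = 0 := by
    rw [← Matrix.eval_charpoly]; exact hz
  obtain ⟨y, hy0, hy⟩ := Matrix.exists_mulVec_eq_zero_iff.2 hdet
  have hy1 : (A.map Complex.ofReal).mulVec y = z • y := by
    rw [Matrix.sub_mulVec, sub_eq_zero] at hy
    rw [← hy]
    funext i
    simp [Matrix.scalar, Matrix.mulVec_diagonal]
  have hyk : ∀ k : ℕ, ((A.map Complex.ofReal) ^ k).mulVec y = z ^ k • y := by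
    intro k
    induction k with
    | zero => simp
    | succ k ih =>
      rw [pow_succ, ← Matrix.mulVec_mulVec, hy1, Matrix.mulVec_smul, ih, smul_smul, pow_succ']
  have hne : (Finset.univ : Finset (Fin n)).Nonempty := ⟨⟨0, hn⟩, Finset.mem_univ _⟩
  obtain ⟨i, -, hi⟩ := Finset.exists_max_image Finset.univ (fun i => ‖y i‖) hne
  have hyi : 0 < ‖y i‖ := by
    by_contra hcon
    push Not at hcon
    refine hy0 (funext fun j => ?_)
    have h1 := (hi j (Finset.mem_univ j)).trans hcon
    exact norm_le_zero_iff.1 h1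
  have h2 : z ^ s * y i = ∑ j, (((A ^ s) i j : ℝ) : ℂ) * y j := by
    have := congrFun (hyk s) i
    rw [Pool.Agent.MP9a50b7.map_pow_ofReal] at this
    simp only [Matrix.mulVec, dotProduct, Matrix.map_apply, Pi.smul_apply, smul_eq_mul] at this
    exact this.symm
  have h3 : ‖z‖ ^ s * ‖y i‖ ≤ nrm (A ^ s) * ‖y i‖ := by
    calc ‖z‖ ^ s * ‖y i‖ = ‖z ^ s * y i‖ := by rw [norm_mul, norm_pow]
      _ = ‖∑ j, (((A ^ s) i j : ℝ) : ℂ) * y j‖ := by rw [h2]
      _ ≤ ∑ j, ‖(((A ^ s) i j : ℝ) : ℂ) * y j‖ := norm_sum_le _ _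
      _ ≤ ∑ j, |(A ^ s) i j| * ‖y i‖ := by
          refine Finset.sum_le_sum fun j _ => ?_
          rw [norm_mul, Complex.norm_real, Real.norm_eq_abs]
          exact mul_le_mul_of_nonneg_left (hi j (Finset.mem_univ j)) (abs_nonneg _)
      _ = (∑ j, |(A ^ s) i j|) * ‖y i‖ := by rw [Finset.sum_mul]
      _ ≤ nrm (A ^ s) * ‖y i‖ := by
          refine mul_le_mul_of_nonneg_right ?_ hyi.le
          exact Finset.single_le_sum (f := fun i => ∑ j, |(A ^ s) i j|)
            (fun _ _ => Finset.sum_nonneg fun _ _ => abs_nonneg _) (Finset.mem_univ i)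
  exact le_of_mul_le_mul_right h3 hyi

/-! ### The largest norm of a product of length `t` -/

/-- The largest norm of a product of length `t`. -/
noncomputable def mx {n : ℕ} (S : Set (Mat n)) (t : ℕ) : ℝ := sSup (nrm '' (S ^ t))

theorem finite_pow {n : ℕ} {S : Set (Mat n)} (hS : S.Finite) (t : ℕ) : (S ^ t).Finite := by
  induction t with
  | zero =>
    rw [pow_zero]
    exact Set.finite_one
  | succ t ih =>
    rw [pow_succ]
    exact ih.mul hS

theorem bdd {n : ℕ} {S : Set (Mat n)} (hS : S.Finite) (t : ℕ) :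
    BddAbove (nrm '' (S ^ t)) := ((finite_pow hS t).image nrm).bddAbove

theorem le_mx {n : ℕ} {S : Set (Mat n)} (hS : S.Finite) {t : ℕ} {A : Mat n} (hA : A ∈ S ^ t) :
    nrm A ≤ mx S t := le_csSup (bdd hS t) (Set.mem_image_of_mem nrm hA)

theorem mx_nonneg {n : ℕ} (S : Set (Mat n)) (t : ℕ) : 0 ≤ mx S t := by
  refine Real.sSup_nonneg ?_
  rintro _ ⟨A, -, rfl⟩
  exact nrm_nonneg A

/-- A product of `k ≥ 1` products of length `s`. -/
theorem nrm_le_mx_pow {n : ℕ} {S : Set (Mat n)} (hS : S.Finite) (s : ℕ) {k : ℕ} (hk : 1 ≤ k) :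
    ∀ {A : Mat n}, A ∈ (S ^ s) ^ k → nrm A ≤ mx S s ^ k := by
  induction k, hk using Nat.le_induction with
  | base =>
    intro A hA
    rw [pow_one] at hA
    rw [pow_one]
    exact le_mx hS hA
  | succ k hk ih =>
    intro A hA
    rw [pow_succ] at hA
    obtain ⟨B, hB, C, hC, rfl⟩ := Set.mem_mul.1 hA
    rw [pow_succ]
    exact (nrm_mul_le B C).trans
      (mul_le_mul (ih hB) (le_mx hS hC) (nrm_nonneg C) (pow_nonneg (mx_nonneg S s) k))

/-- Every product of length `t` of a family is a member of `S ^ t`, and conversely. -/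
theorem mem_pow_range {ι : Type} {n : ℕ} (M : ι → Mat n) (t : ℕ) (A : Mat n) :
    A ∈ (Set.range M) ^ t ↔ ∃ w : List ι, w.length = t ∧ (w.map M).prod = A := by
  induction t generalizing A with
  | zero =>
    rw [pow_zero, Set.mem_one]
    constructor
    · rintro rfl
      exact ⟨[], rfl, rfl⟩
    · rintro ⟨w, hw, rfl⟩
      rw [List.length_eq_zero_iff.1 hw]
      rfl
  | succ t ih =>
    rw [pow_succ', Set.mem_mul]
    constructor
    · rintro ⟨_, ⟨a, rfl⟩, B, hB, rfl⟩
      obtain ⟨w, hw, rfl⟩ := (ih B).1 hB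
      exact ⟨a :: w, by rw [List.length_cons, hw], by rw [List.map_cons, List.prod_cons]⟩
    · rintro ⟨w, hw, rfl⟩
      rcases w with _ | ⟨a, w⟩
      · simp at hw
      · refine ⟨M a, ⟨a, rfl⟩, (w.map M).prod, (ih _).2 ⟨w, ?_, rfl⟩, ?_⟩
        · simpa using hw
        · rw [List.map_cons, List.prod_cons]

open Pool.Agent.MP9a50b7 in
/-- The finiteness property agrees with its growth form. -/
theorem finitenessProperty_iff {ι : Type} [Finite ι] [Nonempty ι] {n : ℕ} (hn : 0 < n)
    (M : ι → Mat n) : FinitenessProperty (Set.range M) ↔ FPg M := by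
  have hS : (Set.range M).Finite := Set.finite_range M
  constructor
  · rintro ⟨t, ht, A, hA, hlim⟩
    obtain ⟨w, hw, rfl⟩ := (mem_pow_range M t A).1 hA
    have ht0 : (t : ℝ) ≠ 0 := by exact_mod_cast (by omega : t ≠ 0)
    refine ⟨w, ?_, fun r hr hP ε hε => ?_⟩
    · rintro rfl
      simp at hw
      omega
    set A := (w.map M).prod with hAdef
    obtain ⟨z, hz, hz2⟩ := exists_root_specRad hn A
    have h1 : ‖z‖ ≤ r ^ w.length := root_le (pow_pos hr _) hP hz
    rw [hz2, hw] at h1
    -- the joint spectral radius is at most `r`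
    have h2 : specRad A ^ ((1 : ℝ) / t) ≤ r := by
      have h3 := Real.rpow_le_rpow (specRad_nonneg A) h1 (show (0 : ℝ) ≤ 1 / t by positivity)
      rwa [← Real.rpow_natCast, ← Real.rpow_mul hr.le, mul_one_div_cancel ht0,
        Real.rpow_one] at h3
    have h3 : ∀ᶠ s : ℕ in atTop, mx (Set.range M) s ^ ((1 : ℝ) / s) < r + ε :=
      hlim.eventually_lt_const (by linarith)
    obtain ⟨s0, hs0⟩ := eventually_atTop.1 h3
    have hre : 0 < r + ε := by linarith
    have h4 : ∀ s, s0 + 1 ≤ s → mx (Set.range M) s ≤ (r + ε) ^ s := by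
      intro s hs
      have h5 := (hs0 s (by omega)).le
      have hs' : (s : ℝ) ≠ 0 := by exact_mod_cast (by omega : s ≠ 0)
      have h6 := pow_le_pow_left₀ (Real.rpow_nonneg (mx_nonneg _ _) _) h5 s
      rwa [← Real.rpow_natCast (mx (Set.range M) s ^ ((1 : ℝ) / s)),
        ← Real.rpow_mul (mx_nonneg _ _), one_div_mul_cancel hs', Real.rpow_one] at h6
    refine ⟨1 + ∑ s ∈ Finset.range (s0 + 1), mx (Set.range M) s / (r + ε) ^ s, fun u i j => ?_⟩
    have hsum : 0 ≤ ∑ s ∈ Finset.range (s0 + 1), mx (Set.range M) s / (r + ε) ^ s :=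
      Finset.sum_nonneg fun s _ => div_nonneg (mx_nonneg _ _) (pow_nonneg hre.le _)
    have h5 : |(u.map M).prod i j| ≤ mx (Set.range M) u.length :=
      (entry_le_nrm _ i j).trans (le_mx hS ((mem_pow_range M _ _).2 ⟨u, rfl, rfl⟩))
    refine h5.trans ?_
    have hpos : 0 < (r + ε) ^ u.length := pow_pos hre _
    by_cases hu : s0 + 1 ≤ u.length
    · calc mx (Set.range M) u.length ≤ 1 * (r + ε) ^ u.length := by
            rw [one_mul]; exact h4 _ hu
        _ ≤ _ := mul_le_mul_of_nonneg_right (by linarith) hpos.le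
    · have h6 : mx (Set.range M) u.length / (r + ε) ^ u.length ≤
          ∑ s ∈ Finset.range (s0 + 1), mx (Set.range M) s / (r + ε) ^ s :=
        Finset.single_le_sum (f := fun s => mx (Set.range M) s / (r + ε) ^ s)
          (fun s _ => div_nonneg (mx_nonneg _ _) (pow_nonneg hre.le _))
          (Finset.mem_range.2 (by omega))
      rw [← div_le_iff₀ hpos]
      linarith
  · rintro ⟨w, hw, h⟩
    have hl : w.length ≠ 0 := fun h => hw (List.length_eq_zero_iff.1 h)
    have hl1 : 1 ≤ w.length := Nat.one_le_iff_ne_zero.2 hl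
    have hl0 : (w.length : ℝ) ≠ 0 := by exact_mod_cast hl
    refine ⟨w.length, hl1, (w.map M).prod, (mem_pow_range M _ _).2 ⟨w, rfl, rfl⟩, ?_⟩
    set A := (w.map M).prod with hA
    set a := specRad A ^ ((1 : ℝ) / w.length) with ha
    have ha0 : 0 ≤ a := Real.rpow_nonneg (specRad_nonneg A) _
    have haz : a ^ w.length = specRad A := by
      rw [ha, ← Real.rpow_natCast, ← Real.rpow_mul (specRad_nonneg A),
        one_div_mul_cancel hl0, Real.rpow_one]
    -- the lower bound
    have hlow : ∀ s : ℕ, 1 ≤ s → a ≤ mx (Set.range M) s ^ ((1 : ℝ) / s) := by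
      intro s hs
      have hs' : (s : ℝ) ≠ 0 := by exact_mod_cast (by omega : s ≠ 0)
      have h1 : A ^ s ∈ ((Set.range M) ^ s) ^ w.length := by
        have h2 : A ^ s ∈ ((Set.range M) ^ w.length) ^ s :=
          Set.pow_mem_pow ((mem_pow_range M _ _).2 ⟨w, rfl, rfl⟩)
        rwa [← pow_mul, mul_comm, pow_mul] at h2
      have h2 := (specRad_pow_le hn A s).trans (nrm_le_mx_pow hS s hl1 h1)
      rw [← haz, ← pow_mul, mul_comm, pow_mul] at h2
      have h3 : a ^ s ≤ mx (Set.range M) s :=
        le_of_pow_le_pow_left₀ hl (mx_nonneg _ _) h2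
      have h4 := Real.rpow_le_rpow (pow_nonneg ha0 s) h3 (show (0 : ℝ) ≤ 1 / s by positivity)
      rwa [← Real.rpow_natCast, ← Real.rpow_mul ha0, mul_one_div_cancel hs',
        Real.rpow_one] at h4
    -- the upper bound
    have hup : ∀ δ : ℝ, 0 < δ → ∀ᶠ s : ℕ in atTop,
        mx (Set.range M) s ^ ((1 : ℝ) / s) ≤ a + δ := by
      intro δ hδ
      have h1 : PGr A ((a + δ / 4) ^ w.length) := by
        refine pgr_of_roots hn (pow_pos (by linarith) _) fun z hz => ?_
        calc ‖z‖ ≤ specRad A := root_le_specRad hz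
          _ = a ^ w.length := haz.symm
          _ < (a + δ / 4) ^ w.length := pow_lt_pow_left₀ (by linarith) ha0 hl
      obtain ⟨C, hC⟩ := h (a + δ / 4) (by linarith) h1 (δ / 4) (by linarith)
      have hb0 : 0 < a + δ / 4 + δ / 4 := by linarith
      have hrat : 1 < (a + δ) / (a + δ / 4 + δ / 4) := by
        rw [one_lt_div hb0]; linarith
      have h2 : ∀ᶠ s : ℕ in atTop, (n : ℝ) * (n * C) ≤
          ((a + δ) / (a + δ / 4 + δ / 4)) ^ s :=
        (tendsto_pow_atTop_atTop_of_one_lt hrat).eventually_ge_atTop _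
      filter_upwards [h2, eventually_ge_atTop 1] with s hs hs1
      have hs' : (s : ℝ) ≠ 0 := by exact_mod_cast (by omega : s ≠ 0)
      have hps : 0 < (a + δ / 4 + δ / 4) ^ s := pow_pos hb0 _
      have h3 : mx (Set.range M) s ≤ (a + δ) ^ s := by
        refine csSup_le ?_ ?_
        · have hne : (Set.range M).Nonempty := Set.range_nonempty M
          exact (hne.pow).image nrm
        · rintro _ ⟨B, hB, rfl⟩
          obtain ⟨u, hu, rfl⟩ := (mem_pow_range M s B).1 hB
          have h4 := nrm_le_of_entry fun i j => hC u i j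
          refine h4.trans ?_
          rw [hu]
          rw [div_pow, le_div_iff₀ hps] at hs
          calc _ = (n : ℝ) * (n * C) * (a + δ / 4 + δ / 4) ^ s := by ring
            _ ≤ _ := hs
      have h4 := Real.rpow_le_rpow (mx_nonneg _ _) h3 (show (0 : ℝ) ≤ 1 / s by positivity)
      rwa [← Real.rpow_natCast, ← Real.rpow_mul (by linarith), mul_one_div_cancel hs',
        Real.rpow_one] at h4
    show Tendsto (fun s : ℕ => mx (Set.range M) s ^ ((1 : ℝ) / s)) atTop (𝓝 a)
    rw [Metric.tendsto_atTop]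
    intro δ hδ
    obtain ⟨s0, hs0⟩ := eventually_atTop.1 (hup (δ / 2) (by linarith))
    refine ⟨s0 + 1, fun s hs => ?_⟩
    have h1 := hlow s (by omega)
    have h2 := hs0 s (by omega)
    rw [Real.dist_eq, abs_of_nonneg (by linarith)]
    linarith

/-! ### The codes of the reduction -/

/-- The code of a family of integer matrices. -/
def enc {N m : ℕ} (Z : Fin m → Matrix (Fin N) (Fin N) ℤ) : Code :=
  (N, List.ofFn fun k => List.ofFn fun i => List.ofFn fun j => (Z k i j, 1))

theorem matOf_enc {N : ℕ} (X : Matrix (Fin N) (Fin N) ℤ) :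
    matOf N (List.ofFn fun i => List.ofFn fun j => (X i j, (1 : ℤ))) =
      X.map (Int.cast : ℤ → ℝ) := by
  ext i j
  simp only [matOf, Matrix.of_apply, Pool.Agent.MP9a50b7.getD_ofFn, Matrix.map_apply]
  simp

theorem matSet_enc {N m : ℕ} (Z : Fin m → Matrix (Fin N) (Fin N) ℤ) :
    matSet (enc Z) = Set.range fun k => (Z k).map (Int.cast : ℤ → ℝ) := by
  ext A
  simp only [matSet, enc, List.mem_ofFn]
  constructor
  · rintro ⟨_, ⟨k, rfl⟩, rfl⟩
    exact ⟨k, (matOf_enc (Z k)).symm⟩
  · rintro ⟨k, rfl⟩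
    exact ⟨_, ⟨k, rfl⟩, (matOf_enc (Z k)).symm⟩

theorem isInstance_enc {N m : ℕ} (hN : 0 < N) (hm : 0 < m)
    (Z : Fin m → Matrix (Fin N) (Fin N) ℤ) : IsInstance (enc Z) := by
  refine ⟨hN, ?_, ?_⟩
  · intro h
    have h1 := congrArg List.length h
    simp only [enc, List.length_ofFn, List.length_nil] at h1
    omega
  · intro M hM
    simp only [enc, List.mem_ofFn] at hM
    obtain ⟨k, rfl⟩ := hM
    refine ⟨by simp [enc], fun r hr => ?_⟩
    simp only [List.mem_ofFn] at hr
    obtain ⟨i, rfl⟩ := hr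
    refine ⟨by simp [enc], fun q hq => ?_⟩
    simp only [List.mem_ofFn] at hq
    obtain ⟨j, rfl⟩ := hq
    simp

theorem isInteger_enc {N m : ℕ} (Z : Fin m → Matrix (Fin N) (Fin N) ℤ) :
    IsInteger (enc Z) := by
  intro M hM r hr q hq
  simp only [enc, List.mem_ofFn] at hM
  obtain ⟨k, rfl⟩ := hM
  simp only [List.mem_ofFn] at hr
  obtain ⟨i, rfl⟩ := hr
  simp only [List.mem_ofFn] at hq
  obtain ⟨j, rfl⟩ := hq
  rfl

open Pool.Agent.MP9a50b7 in
/-- **The finiteness property is undecidable.**  No computable function decides correctly, for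
every nonempty finite set of rational matrices of a common size, whether it has the finiteness
property.  Moreover there are `n` and `m` such that this holds already for the inputs which
consist of `m` matrices of size `n` with integer entries. -/
theorem result :
    (¬ ∃ F : Code → Bool, Computable F ∧ Decides F fun _ => True) ∧
      ∃ n m : ℕ, ¬ ∃ F : Code → Bool, Computable F ∧
        Decides F fun c => c.1 = n ∧ c.2.length = m ∧ IsInteger c := by
  have main : ∃ n m : ℕ, ¬ ∃ F : Code → Bool, Computable F ∧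
      Decides F fun c => c.1 = n ∧ c.2.length = m ∧ IsInteger c := by
    obtain ⟨N, m, Z, hN, hm, hZ, hundec⟩ := exists_fixed
    refine ⟨N, m, ?_⟩
    rintro ⟨F, hF, hdec⟩
    apply hundec
    have hg : Computable fun x => enc (Z x) := by
      refine Primrec.to_comp ?_
      refine Primrec.pair (Primrec.const N) ?_
      refine Primrec.list_ofFn fun k => Primrec.list_ofFn fun i => Primrec.list_ofFn fun j => ?_
      exact Primrec.pair (hZ k i j) (Primrec.const 1)
    rw [ComputablePred.computable_iff]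
    refine ⟨fun x => F (enc (Z x)), hF.comp hg, ?_⟩
    funext x
    have : Nonempty (Fin m) := ⟨⟨0, hm⟩⟩
    have h1 := hdec (enc (Z x)) (isInstance_enc hN hm (Z x))
      ⟨rfl, by simp [enc], isInteger_enc (Z x)⟩
    have h2 : FinitenessProperty (matSet (enc (Z x))) ↔
        FPg (fun k => (Z x k).map (Int.cast : ℤ → ℝ)) := by
      rw [matSet_enc]
      exact finitenessProperty_iff hN _
    exact propext (h2.symm.trans h1.symm)
  refine ⟨?_, main⟩
  rintro ⟨F, hF, hdec⟩
  obtain ⟨n, m, hnm⟩ := main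
  exact hnm ⟨F, hF, fun c hc _ => hdec c hc trivial⟩

end Pool.Agent.Results.MP_9a50b7_lc.FixedSizeUndecidable
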