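import Mathlib
import Pool.Agent.Lib.MP_9a50b7_lc.NoFP.NN

/-!
# Two non-negative integer matrices without the finiteness property
-/

set_option autoImplicit false

/-- There are two square matrices with non-negative integer entries such that no product
attains the joint spectral radius: if `z` is an eigenvalue of a product of length `k ≥ 1`, then
for some `ε > 0` the entries of the products of length `t` are not `O((|z|^(1/k) + ε)^t)`. -/
theorem Pool.Agent.Results.MP_9a50b7_lc.NonnegativePair.result :
    ∃ (n : ℕ) (N : Fin 2 → Matrix (Fin n) (Fin n) ℕ), 0 < n ∧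
      ∀ w : List (Fin 2), w ≠ [] → ∀ z : ℂ,
        (Matrix.charpoly ((w.map N).prod.map (Nat.cast : ℕ → ℂ))).IsRoot z →
          ∃ ε : ℝ, 0 < ε ∧ ∀ C : ℝ, ∃ (u : List (Fin 2)) (i j : Fin n),
            C * (‖z‖ ^ ((1 : ℝ) / (w.length : ℝ)) + ε) ^ u.length <
              (((u.map N).prod i j : ℕ) : ℝ) :=
  Pool.Agent.MP9a50b7.NoFP.exists_pair
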